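import Pool.Agent.helper64.D2.SpecS

set_option autoImplicit false

open Filter Topology
open scoped commutatorElement

namespace Pool.Agent.helper64.D2

theorem SM2_sq {α : Type} {l : Filter α} {a : α → ℝ} (h : Tendsto (fun x => (a x) ^ 2) l (𝓝 0)) :
    Tendsto a l (𝓝 0) := by
  rw [tendsto_zero_iff_abs_tendsto_zero]
  have h1 := (Real.continuous_sqrt.tendsto (0 : ℝ)).comp h
  rw [Real.sqrt_zero] at h1
  refine h1.congr fun x => ?_
  simp [Real.sqrt_sq_eq_abs]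

/-- the function `(1-x)^2 h(1/(1-x)^2)` -/
noncomputable def SM2_g (h : ℝ → ℝ) (x : ℝ) : ℝ := (1 - x) ^ 2 * h (1 / (1 - x) ^ 2)

noncomputable def SM2_q (h : ℝ → ℝ) (x : ℝ) : ℝ := (√(SM2_g h x))⁻¹

theorem SM2_gpos {h : ℝ → ℝ} (h1 : ∀ u, u ≤ 1 → h u = u) (h2 : ∀ u, 1 ≤ u → 1 ≤ h u) {x : ℝ}
    (hx : x < 1) : 0 < SM2_g h x := by
  unfold SM2_g
  have hs : 0 < 1 - x := by linarith
  have hu : 0 < 1 / (1 - x) ^ 2 := by positivity
  apply mul_pos (by positivity)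
  rcases le_total (1 / (1 - x) ^ 2) 1 with hle | hge
  · rw [h1 _ hle]; exact hu
  · linarith [h2 _ hge]

theorem SM2_qg {h : ℝ → ℝ} (h1 : ∀ u, u ≤ 1 → h u = u) (h2 : ∀ u, 1 ≤ u → 1 ≤ h u) {x : ℝ}
    (hx : x < 1) : SM2_q h x ^ 2 * SM2_g h x = 1 := by
  have hg := SM2_gpos h1 h2 hx
  unfold SM2_q
  rw [inv_pow, Real.sq_sqrt hg.le]
  exact inv_mul_cancel₀ hg.ne'

theorem SM2_dg {h : ℝ → ℝ} (hd : Differentiable ℝ h) {x : ℝ} (hx : x < 1) :
    HasDerivAt (SM2_g h) (-2 * (1 - x) * h (1 / (1 - x) ^ 2) + 2 * (1 - x)⁻¹ * deriv h (1 / (1 - x) ^ 2)) x := by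
  have hs : (1 - x) ≠ 0 := by
    intro h0; linarith
  have h1 : HasDerivAt (fun y : ℝ => 1 - y) (-1) x := by
    simpa using (hasDerivAt_id x).const_sub 1
  have h2 : HasDerivAt (fun y : ℝ => (1 - y) ^ 2) (-2 * (1 - x)) x := by
    have := h1.pow 2
    refine this.congr_deriv ?_
    simp
    
  have h3 : HasDerivAt (fun y : ℝ => 1 / (1 - y) ^ 2) (2 * ((1 - x)⁻¹) ^ 3) x := by
    have := h2.fun_inv (pow_ne_zero 2 hs)
    have h4 : HasDerivAt (fun y : ℝ => 1 / (1 - y) ^ 2) (-(-2 * (1 - x)) / ((1 - x) ^ 2) ^ 2) x := by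
      simpa [one_div] using this
    refine h4.congr_deriv ?_
    field_simp
  have h4 : HasDerivAt (fun y : ℝ => h (1 / (1 - y) ^ 2))
      (deriv h (1 / (1 - x) ^ 2) * (2 * ((1 - x)⁻¹) ^ 3)) x :=
    HasDerivAt.comp x (hd _).hasDerivAt h3
  have h5 := h2.mul h4
  refine h5.congr_deriv ?_
  field_simp

theorem SM2_dq {h : ℝ → ℝ} (hd : Differentiable ℝ h) (h1 : ∀ u, u ≤ 1 → h u = u)
    (h2 : ∀ u, 1 ≤ u → 1 ≤ h u) {x : ℝ} (hx : x < 1) :
    HasDerivAt (SM2_q h) (SM2_q h x ^ 3 * ((1 - x) * h (1 / (1 - x) ^ 2) -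
      (1 - x)⁻¹ * deriv h (1 / (1 - x) ^ 2))) x := by
  have hg := SM2_gpos h1 h2 hx
  have hsq : √(SM2_g h x) ≠ 0 := (Real.sqrt_pos.2 hg).ne'
  have h3 := ((SM2_dg hd hx).sqrt hg.ne').inv hsq
  refine h3.congr_deriv ?_
  unfold SM2_q
  have h4 : √(SM2_g h x) ^ 2 = SM2_g h x := Real.sq_sqrt hg.le
  field_simp
  ring

theorem SM2_dF {h : ℝ → ℝ} (hd : Differentiable ℝ h) (h1 : ∀ u, u ≤ 1 → h u = u)
    (h2 : ∀ u, 1 ≤ u → 1 ≤ h u) {x : ℝ} (hx : x < 1) :
    HasDerivAt (fun y => 1 - (1 - y) * SM2_q h y) (deriv h (1 / (1 - x) ^ 2) * SM2_q h x ^ 3) x := by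
  have hs : (1 - x) ≠ 0 := by
    intro h0; linarith
  have h3 : HasDerivAt (fun y : ℝ => 1 - y) (-1) x := by
    simpa using (hasDerivAt_id x).const_sub 1
  have h4 := (h3.mul (SM2_dq hd h1 h2 hx)).const_sub 1
  refine h4.congr_deriv ?_
  have h5 := SM2_qg h1 h2 hx
  have h6 : SM2_q h x ^ 3 * ((1 - x) ^ 2 * h (1 / (1 - x) ^ 2)) = SM2_q h x := by
    have h7 : SM2_q h x ^ 2 * ((1 - x) ^ 2 * h (1 / (1 - x) ^ 2)) = 1 := h5
    calc SM2_q h x ^ 3 * ((1 - x) ^ 2 * h (1 / (1 - x) ^ 2))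
        = SM2_q h x * (SM2_q h x ^ 2 * ((1 - x) ^ 2 * h (1 / (1 - x) ^ 2))) := by ring
      _ = SM2_q h x := by rw [h7, mul_one]
  have h8 : (1 - x) * (1 - x)⁻¹ = 1 := mul_inv_cancel₀ hs
  linear_combination (-1 : ℝ) * h6 + SM2_q h x ^ 3 * deriv h (1 / (1 - x) ^ 2) * h8

theorem SM2_dF1 {h : ℝ → ℝ} (hd : Differentiable ℝ h) (hdd : Differentiable ℝ (deriv h))
    (h1 : ∀ u, u ≤ 1 → h u = u) (h2 : ∀ u, 1 ≤ u → 1 ≤ h u) {x : ℝ} (hx : x < 1) :
    HasDerivAt (fun y => deriv h (1 / (1 - y) ^ 2) * SM2_q h y ^ 3)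
      (2 * ((1 - x)⁻¹ ^ 3 * d2 h (1 / (1 - x) ^ 2)) * SM2_q h x ^ 3 + 3 * deriv h (1 / (1 - x) ^ 2) * SM2_q h x ^ 5 *
        ((1 - x) * (h (1 / (1 - x) ^ 2) - 1 / (1 - x) ^ 2) - (1 - x)⁻¹ * (deriv h (1 / (1 - x) ^ 2) - 1))) x := by
  have hs : (1 - x) ≠ 0 := by
    intro h0; linarith
  have h3 : HasDerivAt (fun y : ℝ => 1 - y) (-1) x := by
    simpa using (hasDerivAt_id x).const_sub 1
  have h4 : HasDerivAt (fun y : ℝ => 1 / (1 - y) ^ 2) (2 * ((1 - x)⁻¹) ^ 3) x := by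
    have h30 : HasDerivAt (fun y : ℝ => (1 - y) ^ 2) (2 * (1 - x) * (-1)) x := by
      refine (h3.pow 2).congr_deriv ?_
      simp
    have := h30.fun_inv (pow_ne_zero 2 hs)
    have h5 : HasDerivAt (fun y : ℝ => 1 / (1 - y) ^ 2) (-(2 * (1 - x) * (-1)) / ((1 - x) ^ 2) ^ 2) x := by
      simpa [one_div] using this
    refine h5.congr_deriv ?_
    field_simp
  have h6 : HasDerivAt (fun y : ℝ => deriv h (1 / (1 - y) ^ 2))
      (d2 h (1 / (1 - x) ^ 2) * (2 * ((1 - x)⁻¹) ^ 3)) x :=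
    HasDerivAt.comp x (hdd _).hasDerivAt h4
  have h7 := h6.mul ((SM2_dq hd h1 h2 hx).pow 3)
  refine h7.congr_deriv ?_
  simp only [Pi.pow_apply]
  field_simp
  ring

/-- `F` is the map on the period `[0,1)`, the identity elsewhere. -/
noncomputable def SM2_F (h : ℝ → ℝ) (x : ℝ) : ℝ := if x < 1 then 1 - (1 - x) * SM2_q h x else x

noncomputable def SM2_F1 (h : ℝ → ℝ) (x : ℝ) : ℝ :=
  if x < 1 then deriv h (1 / (1 - x) ^ 2) * SM2_q h x ^ 3 else 1

noncomputable def SM2_F2 (h : ℝ → ℝ) (x : ℝ) : ℝ :=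
  if x < 1 then 2 * ((1 - x)⁻¹ ^ 3 * d2 h (1 / (1 - x) ^ 2)) * SM2_q h x ^ 3 +
    3 * deriv h (1 / (1 - x) ^ 2) * SM2_q h x ^ 5 *
      ((1 - x) * (h (1 / (1 - x) ^ 2) - 1 / (1 - x) ^ 2) - (1 - x)⁻¹ * (deriv h (1 / (1 - x) ^ 2) - 1)) else 0

theorem SM2_sqrt {h : ℝ → ℝ} {x : ℝ} (hx : x < 1) :
    (1 - x) * SM2_q h x = 1 / √(h (1 / (1 - x) ^ 2)) := by
  have hs : 0 < 1 - x := by linarith
  unfold SM2_q SM2_g
  rw [Real.sqrt_mul (by positivity), Real.sqrt_sq hs.le, mul_inv, ← mul_assoc,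
    mul_inv_cancel₀ hs.ne', one_mul]
  exact (one_div _).symm

theorem SM2_Fkk {h : ℝ → ℝ} {x : ℝ} (hx : x < 1) : SM2_F h x = kk (h (uu x)) := by
  unfold SM2_F kk uu
  rw [if_pos hx, SM2_sqrt hx]

theorem SM2_Fid {h : ℝ → ℝ} (h1 : ∀ u, u ≤ 1 → h u = u) {x : ℝ} (hx : x ≤ 0 ∨ 1 ≤ x) :
    SM2_F h x = x := by
  rcases hx with hx | hx
  · have hlt : x < 1 := by linarith
    rw [SM2_Fkk hlt]
    have hs : 0 < 1 - x := by linarith
    have hs1 : 1 ≤ 1 - x := by linarith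
    have hu : uu x ≤ 1 := by
      unfold uu
      rw [div_le_one (by positivity)]
      nlinarith
    rw [h1 _ hu]
    unfold kk uu
    rw [show (1 : ℝ) / (1 - x) ^ 2 = (1 / (1 - x)) ^ 2 by rw [div_pow, one_pow],
      Real.sqrt_sq (by positivity)]
    field_simp
    ring
  · unfold SM2_F
    rw [if_neg (not_lt.2 hx)]

theorem SM2_lims {h : ℝ → ℝ} (h3 : Tendsto (fun u : ℝ => u ^ 3 * d2 h u ^ 2) atTop (𝓝 0))
    (h4 : Tendsto (fun u : ℝ => u * (deriv h u - 1) ^ 2) atTop (𝓝 0))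
    (h5 : Tendsto (fun u : ℝ => (h u - u) ^ 2 / u) atTop (𝓝 0)) :
    Tendsto (fun x : ℝ => (1 - x)⁻¹ ^ 3 * d2 h (1 / (1 - x) ^ 2)) (𝓝[<] 1) (𝓝 0) ∧
    Tendsto (fun x : ℝ => (1 - x)⁻¹ * (deriv h (1 / (1 - x) ^ 2) - 1)) (𝓝[<] 1) (𝓝 0) ∧
    Tendsto (fun x : ℝ => (1 - x) * (h (1 / (1 - x) ^ 2) - 1 / (1 - x) ^ 2)) (𝓝[<] 1) (𝓝 0) ∧
    Tendsto (fun x : ℝ => deriv h (1 / (1 - x) ^ 2)) (𝓝[<] 1) (𝓝 1) ∧
    Tendsto (SM2_q h) (𝓝[<] 1) (𝓝 1) := by
  have hS : Tendsto (fun x : ℝ => 1 - x) (𝓝[<] 1) (𝓝 0) := by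
    have : Tendsto (fun x : ℝ => 1 - x) (𝓝 1) (𝓝 (1 - 1)) := (continuous_const.sub continuous_id).tendsto 1
    rw [sub_self] at this
    exact this.mono_left nhdsWithin_le_nhds
  have hev : ∀ᶠ x : ℝ in 𝓝[<] 1, x < 1 := eventually_mem_nhdsWithin
  have hU : Tendsto (fun x : ℝ => 1 / (1 - x) ^ 2) (𝓝[<] 1) atTop := by
    have h6 : Tendsto (fun x : ℝ => (1 - x) ^ 2) (𝓝[<] 1) (𝓝[>] 0) := by
      rw [tendsto_nhdsWithin_iff]
      refine ⟨by simpa using hS.pow 2, ?_⟩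
      filter_upwards [hev] with x hx
      have : 0 < 1 - x := by linarith
      exact Set.mem_Ioi.2 (by positivity)
    have h7 := tendsto_inv_nhdsGT_zero.comp h6
    refine h7.congr fun x => ?_
    simp [one_div]
  have e1 : Tendsto (fun x : ℝ => (1 - x)⁻¹ ^ 3 * d2 h (1 / (1 - x) ^ 2)) (𝓝[<] 1) (𝓝 0) := by
    apply SM2_sq
    refine (h3.comp hU).congr' ?_
    filter_upwards [hev] with x hx
    have hs : (1 - x) ≠ 0 := by intro h0; linarith
    simp only [Function.comp]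
    field_simp
  have e2 : Tendsto (fun x : ℝ => (1 - x)⁻¹ * (deriv h (1 / (1 - x) ^ 2) - 1)) (𝓝[<] 1) (𝓝 0) := by
    apply SM2_sq
    refine (h4.comp hU).congr' ?_
    filter_upwards [hev] with x hx
    have hs : (1 - x) ≠ 0 := by intro h0; linarith
    simp only [Function.comp]
    field_simp
  have e3 : Tendsto (fun x : ℝ => (1 - x) * (h (1 / (1 - x) ^ 2) - 1 / (1 - x) ^ 2)) (𝓝[<] 1) (𝓝 0) := by
    apply SM2_sq
    refine (h5.comp hU).congr' ?_
    filter_upwards [hev] with x hx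
    have hs : (1 - x) ≠ 0 := by intro h0; linarith
    simp only [Function.comp]
    rw [div_div_eq_mul_div, div_one, mul_pow, mul_comm]
  have e4 : Tendsto (fun x : ℝ => deriv h (1 / (1 - x) ^ 2)) (𝓝[<] 1) (𝓝 1) := by
    have h6 := (hS.mul e2).add_const 1
    rw [zero_mul, zero_add] at h6
    refine h6.congr' ?_
    filter_upwards [hev] with x hx
    have hs : (1 - x) ≠ 0 := by intro h0; linarith
    rw [← mul_assoc, mul_inv_cancel₀ hs]
    ring
  refine ⟨e1, e2, e3, e4, ?_⟩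
  have e5 : Tendsto (SM2_g h) (𝓝[<] 1) (𝓝 1) := by
    have h6 := (hS.mul e3).add_const 1
    rw [zero_mul, zero_add] at h6
    refine h6.congr' ?_
    filter_upwards [hev] with x hx
    have hs : (1 - x) ≠ 0 := by intro h0; linarith
    unfold SM2_g
    field_simp
    ring
  have e6 := ((Real.continuous_sqrt.tendsto (1 : ℝ)).comp e5).inv₀ (by simp)
  rw [Real.sqrt_one, inv_one] at e6
  exact e6

theorem SM2_cont {a b : ℝ → ℝ} {c : ℝ} (ha : Tendsto a (𝓝[<] 1) (𝓝 c)) (hb : ContinuousOn b (Set.Ici 1))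
    (hc : b 1 = c) : ContinuousAt (fun x => if x < 1 then a x else b x) 1 := by
  have e1 : (fun x => if x < (1 : ℝ) then a x else b x) 1 = b 1 := if_neg (lt_irrefl _)
  unfold ContinuousAt
  rw [e1, ← nhdsLT_sup_nhdsGE, tendsto_sup]
  constructor
  · rw [hc]
    refine ha.congr' ?_
    filter_upwards [eventually_mem_nhdsWithin] with x hx
    rw [if_pos (Set.mem_Iio.1 hx)]
  · have h1 := hb 1 (Set.mem_Ici.2 le_rfl)
    refine Tendsto.congr' ?_ h1
    filter_upwards [eventually_mem_nhdsWithin] with x hx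
    rw [if_neg (not_lt.2 (Set.mem_Ici.1 hx))]

theorem SM2_C2 {h : ℝ → ℝ} (hC : ContDiff ℝ 2 h) (h1 : ∀ u, u ≤ 1 → h u = u) (h2 : ∀ u, 1 ≤ u → 1 ≤ h u)
    (h3 : Tendsto (fun u : ℝ => u ^ 3 * d2 h u ^ 2) atTop (𝓝 0))
    (h4 : Tendsto (fun u : ℝ => u * (deriv h u - 1) ^ 2) atTop (𝓝 0))
    (h5 : Tendsto (fun u : ℝ => (h u - u) ^ 2 / u) atTop (𝓝 0)) : ContDiff ℝ 2 (SM2_F h) := by
  obtain ⟨e1, e2, e3, e4, e5⟩ := SM2_lims h3 h4 h5
  have hC' : ContDiff ℝ (1 + 1) h := by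
    rw [one_add_one_eq_two]; exact hC
  have hd : Differentiable ℝ h := hC.differentiable (by norm_num)
  have hC1 : ContDiff ℝ 1 (deriv h) := (contDiff_succ_iff_deriv.1 hC').2.2
  have hdd : Differentiable ℝ (deriv h) := hC1.differentiable (by norm_num)
  have hcd2 : Continuous (d2 h) := hC1.continuous_deriv (by norm_num)
  have hS : Tendsto (fun x : ℝ => 1 - x) (𝓝[<] 1) (𝓝 0) := by
    have : Tendsto (fun x : ℝ => 1 - x) (𝓝 1) (𝓝 (1 - 1)) := (continuous_const.sub continuous_id).tendsto 1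
    rw [sub_self] at this
    exact this.mono_left nhdsWithin_le_nhds
  have c0 : ContinuousAt (SM2_F h) 1 := by
    unfold SM2_F
    apply SM2_cont (c := 1) _ continuousOn_id rfl
    have := (hS.mul e5).const_sub 1
    simpa using this
  have c1 : ContinuousAt (SM2_F1 h) 1 := by
    unfold SM2_F1
    apply SM2_cont (c := 1) _ continuousOn_const rfl
    have := e4.mul (e5.pow 3)
    simpa using this
  have c2 : ContinuousAt (SM2_F2 h) 1 := by
    unfold SM2_F2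
    apply SM2_cont (c := 0) _ continuousOn_const rfl
    have := ((e1.const_mul 2).mul (e5.pow 3)).add (((e4.const_mul 3).mul (e5.pow 5)).mul (e3.sub e2))
    simpa using this
  have lt_ev : ∀ x : ℝ, x < 1 → ∀ᶠ y in 𝓝 x, y < 1 := fun x hx => isOpen_Iio.mem_nhds hx
  have gt_ev : ∀ x : ℝ, 1 < x → ∀ᶠ y in 𝓝 x, 1 < y := fun x hx => isOpen_Ioi.mem_nhds hx
  have d0 : ∀ x, HasDerivAt (SM2_F h) (SM2_F1 h x) x := by
    have : ∀ x, x ≠ 1 → HasDerivAt (SM2_F h) (SM2_F1 h x) x := by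
      intro x hx
      rcases lt_or_gt_of_ne hx with hx | hx
      · have h6 := SM2_dF hd h1 h2 hx
        unfold SM2_F1
        rw [if_pos hx]
        refine h6.congr_of_eventuallyEq ?_
        filter_upwards [lt_ev x hx] with y hy
        unfold SM2_F
        rw [if_pos hy]
      · unfold SM2_F1
        rw [if_neg (not_lt.2 (le_of_lt hx))]
        refine (hasDerivAt_id x).congr_of_eventuallyEq ?_
        filter_upwards [gt_ev x hx] with y hy
        unfold SM2_F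
        rw [if_neg (not_lt.2 (le_of_lt hy))]
        rfl
    intro x
    rcases eq_or_ne x 1 with rfl | hx
    · exact hasDerivAt_of_hasDerivAt_of_ne this c0 c1
    · exact this x hx
  have d1 : ∀ x, HasDerivAt (SM2_F1 h) (SM2_F2 h x) x := by
    have : ∀ x, x ≠ 1 → HasDerivAt (SM2_F1 h) (SM2_F2 h x) x := by
      intro x hx
      rcases lt_or_gt_of_ne hx with hx | hx
      · have h6 := SM2_dF1 hd hdd h1 h2 hx
        unfold SM2_F2
        rw [if_pos hx]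
        refine h6.congr_of_eventuallyEq ?_
        filter_upwards [lt_ev x hx] with y hy
        unfold SM2_F1
        rw [if_pos hy]
      · unfold SM2_F2
        rw [if_neg (not_lt.2 (le_of_lt hx))]
        refine (hasDerivAt_const x (1 : ℝ)).congr_of_eventuallyEq ?_
        filter_upwards [gt_ev x hx] with y hy
        unfold SM2_F1
        rw [if_neg (not_lt.2 (le_of_lt hy))]
    intro x
    rcases eq_or_ne x 1 with rfl | hx
    · exact hasDerivAt_of_hasDerivAt_of_ne this c1 c2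
    · exact this x hx
  have e01 : deriv (SM2_F h) = SM2_F1 h := funext fun x => (d0 x).deriv
  have e12 : deriv (SM2_F1 h) = SM2_F2 h := funext fun x => (d1 x).deriv
  have cc : Continuous (SM2_F2 h) := by
    rw [continuous_iff_continuousAt]
    intro x
    rcases lt_trichotomy x 1 with hx | rfl | hx
    · have hs : (1 - x) ≠ 0 := by intro h0; linarith
      have k1 : ContinuousAt (fun y : ℝ => 1 - y) x := (continuous_const.sub continuous_id).continuousAt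
      have k2 : ContinuousAt (fun y : ℝ => (1 - y)⁻¹) x := k1.inv₀ hs
      have k3 : ContinuousAt (fun y : ℝ => 1 / (1 - y) ^ 2) x :=
        continuousAt_const.div (k1.pow 2) (pow_ne_zero 2 hs)
      have k4 : ContinuousAt (fun y : ℝ => h (1 / (1 - y) ^ 2)) x :=
        ContinuousAt.comp (f := fun y : ℝ => 1 / (1 - y) ^ 2) hd.continuous.continuousAt k3
      have k5 : ContinuousAt (fun y : ℝ => deriv h (1 / (1 - y) ^ 2)) x :=
        ContinuousAt.comp (f := fun y : ℝ => 1 / (1 - y) ^ 2) hdd.continuous.continuousAt k3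
      have k6 : ContinuousAt (fun y : ℝ => d2 h (1 / (1 - y) ^ 2)) x :=
        ContinuousAt.comp (f := fun y : ℝ => 1 / (1 - y) ^ 2) hcd2.continuousAt k3
      have k7 : ContinuousAt (SM2_q h) x := (SM2_dq hd h1 h2 hx).continuousAt
      have k8 : ContinuousAt (fun x : ℝ => 2 * ((1 - x)⁻¹ ^ 3 * d2 h (1 / (1 - x) ^ 2)) * SM2_q h x ^ 3 +
          3 * deriv h (1 / (1 - x) ^ 2) * SM2_q h x ^ 5 *
          ((1 - x) * (h (1 / (1 - x) ^ 2) - 1 / (1 - x) ^ 2) -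
            (1 - x)⁻¹ * (deriv h (1 / (1 - x) ^ 2) - 1))) x :=
        ((continuousAt_const.mul ((k2.pow 3).mul k6)).mul (k7.pow 3)).add
          (((continuousAt_const.mul k5).mul (k7.pow 5)).mul
            ((k1.mul (k4.sub k3)).sub (k2.mul (k5.sub continuousAt_const))))
      refine k8.congr ?_
      filter_upwards [lt_ev x hx] with y hy
      unfold SM2_F2
      rw [if_pos hy]
    · exact c2
    · refine (continuousAt_const (y := (0 : ℝ))).congr ?_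
      filter_upwards [gt_ev x hx] with y hy
      unfold SM2_F2
      rw [if_neg (not_lt.2 (le_of_lt hy))]
  have s1 : ContDiff ℝ 1 (SM2_F1 h) := by
    rw [contDiff_one_iff_deriv]
    exact ⟨fun x => (d1 x).differentiableAt, by rw [e12]; exact cc⟩
  have s2 : ContDiff ℝ (1 + 1) (SM2_F h) := by
    rw [contDiff_succ_iff_deriv]
    refine ⟨fun x => (d0 x).differentiableAt, by simp, ?_⟩
    rw [e01]; exact s1
  rw [one_add_one_eq_two] at s2
  exact s2

theorem SM2 : SM2_stmt := by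
  intro h hC h1 h2 h3 h4 h5
  have hF := SM2_C2 hC h1 h2 h3 h4 h5
  have hW : (fun x : ℝ => (⌊x⌋ : ℝ) + kk (h (uu (Int.fract x)))) =
      fun x : ℝ => (⌊x⌋ : ℝ) + SM2_F h (Int.fract x) := by
    funext x
    rw [SM2_Fkk (Int.fract_lt_one x)]
  rw [hW, contDiff_iff_contDiffAt]
  intro x
  set m : ℤ := ⌊x⌋ with hm
  have hmx : (m : ℝ) ≤ x := Int.floor_le x
  have hxm : x < m + 1 := Int.lt_floor_add_one x
  have hG : ContDiffAt ℝ 2 (fun y : ℝ => y + (SM2_F h (y - m) - (y - m)) +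
      (SM2_F h (y - m + 1) - (y - m + 1))) x := by
    have g1 : ContDiff ℝ 2 (fun y : ℝ => y - m) := contDiff_id.sub contDiff_const
    have g2 : ContDiff ℝ 2 (fun y : ℝ => y - m + 1) := g1.add contDiff_const
    exact ((contDiff_id.add ((hF.comp g1).sub g1)).add ((hF.comp g2).sub g2)).contDiffAt
  refine hG.congr_of_eventuallyEq ?_
  have hop : Set.Ioo ((m : ℝ) - 1) (m + 1) ∈ 𝓝 x := Ioo_mem_nhds (by linarith) hxm
  filter_upwards [hop] with y hy
  rcases le_or_gt (m : ℝ) y with hy1 | hy1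
  · have hfl : ⌊y⌋ = m := by
      rw [Int.floor_eq_iff]; exact ⟨hy1, hy.2⟩
    have hfr : Int.fract y = y - m := by unfold Int.fract; rw [hfl]
    rw [hfl, hfr, SM2_Fid h1 (x := y - m + 1) (Or.inr (by linarith))]
    ring
  · have hfl : ⌊y⌋ = m - 1 := by
      rw [Int.floor_eq_iff]; push_cast; exact ⟨hy.1.le, by linarith⟩
    have hfr : Int.fract y = y - m + 1 := by unfold Int.fract; rw [hfl]; push_cast; ring
    rw [hfl, hfr, SM2_Fid h1 (x := y - m) (Or.inl (by linarith))]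
    push_cast
    ring

end Pool.Agent.helper64.D2
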